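import Pool.Agent.Run7.h852.DN.Stm

/-! # Project DN, piece DN_PTW -/

set_option autoImplicit false

namespace Run7.h930.DN.PTW

open MeasureTheory Set Run7.h852.DN
open Pool.Agent.Y516.NW (E3 Cfg Surf NonW IsFl mom kin pot P2)

section

variable {n : ℕ}

lemma conf_sub (m : Fin (n + 1) → ℝ) (Q : Fin n → E3) (i j : Fin (n + 1)) :
    conf m Q i - conf m Q j = pl Q i - pl Q j := by
  unfold conf
  abel

lemma conf_cen (m : Fin (n + 1) → ℝ) (hm : ∀ i, 0 < m i) (Q : Fin n → E3) :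
    ∑ i, m i • conf m Q i = 0 := by
  have hM : (∑ k, m k) ≠ 0 :=
    (Finset.sum_pos (fun i _ => hm i) ⟨0, Finset.mem_univ _⟩).ne'
  unfold conf
  simp only [smul_sub]
  rw [Finset.sum_sub_distrib, ← Finset.sum_smul, smul_smul, mul_inv_cancel₀ hM, one_smul, sub_self]

lemma pot_le (m : Fin (n + 1) → ℝ) (hm : ∀ i, 0 < m i) (Q : Fin n → E3) (r : ℝ) (hr : 0 < r)
    (h : ∀ i j, i ≠ j → r ≤ ‖pl Q i - pl Q j‖) :
    pot m (conf m Q) ≤ (∑ i, m i) ^ 2 / 2 / r := by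
  have h1 : ∀ i j, m i * m j / ‖conf m Q i - conf m Q j‖ / 2 ≤ m i * m j / (2 * r) := by
    intro i j
    have h2 := mul_pos (hm i) (hm j)
    by_cases hij : i = j
    · subst hij
      rw [sub_self, norm_zero, div_zero, zero_div]
      positivity
    · rw [conf_sub]
      have h3 := h i j hij
      rw [div_div, mul_comm _ (2 : ℝ)]
      apply div_le_div_of_nonneg_left h2.le (by positivity)
      linarith
  calc pot m (conf m Q) = ∑ i, ∑ j, m i * m j / ‖conf m Q i - conf m Q j‖ / 2 := rfl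
    _ ≤ ∑ i, ∑ j, m i * m j / (2 * r) :=
        Finset.sum_le_sum fun i _ => Finset.sum_le_sum fun j _ => h1 i j
    _ = (∑ i, m i) ^ 2 / 2 / r := by
        rw [sq, Finset.sum_mul_sum, Finset.sum_div, Finset.sum_div]
        refine Finset.sum_congr rfl fun i _ => ?_
        rw [Finset.sum_div, Finset.sum_div]
        refine Finset.sum_congr rfl fun j _ => ?_
        rw [div_div]

end

theorem t_PTW : PtwStm := by
  intro n hn m hm E hE
  obtain ⟨C0, hC0, hmain⟩ := Pool.Agent.N775.NW.main_neg n hn m hm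
  obtain ⟨R, hR, hRb, -⟩ := Pool.Agent.Y317.NW.ball n m hm
  have hW : volume {P : Fin n → E3 | kin m (mom P) ≤ 1} ≠ ⊤ := by
    refine ((measure_mono ?_).trans_lt
      (measure_closedBall_lt_top (x := (0 : Fin n → E3)) (r := R))).ne
    intro P hP
    rw [Metric.mem_closedBall, dist_zero_right]
    exact hRb P hP
  obtain ⟨W, hWdef⟩ : ∃ W : ℝ, W = (volume {P : Fin n → E3 | kin m (mom P) ≤ 1}).toReal :=
    ⟨_, rfl⟩
  have hW0 : 0 ≤ W := by rw [hWdef]; exact ENNReal.toReal_nonneg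
  have hM : 0 < ∑ k, m k := Finset.sum_pos (fun i _ => hm i) ⟨0, Finset.mem_univ _⟩
  obtain ⟨D, hD⟩ : ∃ D : ℝ, D = (∑ i, m i) ^ 2 / 2 := ⟨_, rfl⟩
  have hD0 : 0 < D := by rw [hD]; positivity
  refine ⟨D + C0 ^ ((3 : ℝ) / 2) * W, D / (-E), by positivity, div_pos hD0 (by linarith), ?_⟩
  intro ψ φ hφ Q hQ hK
  classical
  -- a closest pair
  obtain ⟨⟨a, b⟩, hab, hmin⟩ := Finset.exists_min_image
    (Finset.univ.filter fun p : Fin (n + 1) × Fin (n + 1) => p.1 ≠ p.2)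
    (fun p => ‖pl Q p.1 - pl Q p.2‖)
    ⟨(⟨0, by omega⟩, ⟨1, by omega⟩), by
      rw [Finset.mem_filter]
      refine ⟨Finset.mem_univ _, ?_⟩
      show (⟨0, by omega⟩ : Fin (n + 1)) ≠ ⟨1, by omega⟩
      intro h
      exact zero_ne_one (congrArg Fin.val h)⟩
  have hab' : a ≠ b := (Finset.mem_filter.mp hab).2
  have hmin' : ∀ i j, i ≠ j → ‖pl Q a - pl Q b‖ ≤ ‖pl Q i - pl Q j‖ := fun i j hij =>
    hmin (i, j) (Finset.mem_filter.mpr ⟨Finset.mem_univ _, hij⟩)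
  -- a third body
  obtain ⟨x, hxa, hxb⟩ : ∃ x : Fin (n + 1), x ≠ a ∧ x ≠ b := by
    have h1 : ({a, b} : Finset (Fin (n + 1))).card < (Finset.univ : Finset (Fin (n + 1))).card := by
      rw [Finset.card_univ, Fintype.card_fin]
      exact lt_of_le_of_lt Finset.card_le_two (by omega)
    obtain ⟨x, _, hx⟩ := Finset.exists_mem_notMem_of_card_lt_card h1
    refine ⟨x, ?_, ?_⟩
    · rintro rfl; exact hx (by simp)
    · rintro rfl; exact hx (by simp)
  obtain ⟨⟨c, d⟩, hcd, hmin2⟩ := Finset.exists_min_image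
    (Finset.univ.filter fun p : Fin (n + 1) × Fin (n + 1) => P2 a b p.1 p.2)
    (fun p => ‖pl Q p.1 - pl Q p.2‖)
    ⟨(x, a), Finset.mem_filter.mpr ⟨Finset.mem_univ _, hxa, fun h => hxa h.1, fun h => hxb h.1⟩⟩
  have hcd' : P2 a b c d := (Finset.mem_filter.mp hcd).2
  have hδ : 0 < ‖pl Q c - pl Q d‖ := norm_pos_iff.mpr (sub_ne_zero.mpr (hQ c d hcd'.1))
  have hr : 0 < ‖pl Q a - pl Q b‖ := norm_pos_iff.mpr (sub_ne_zero.mpr (hQ a b hab'))
  have hpot := pot_le m hm Q _ hr hmin'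
  rw [← hD] at hpot
  have hKdef : ke m E Q = pot m (conf m Q) + E := rfl
  refine ⟨a, b, c, d, hab', hcd', ?_, ?_, ?_⟩
  · -- r ≤ r0
    rw [le_div_iff₀ (by linarith)]
    have h1 : -E ≤ D / ‖pl Q a - pl Q b‖ := by linarith
    rw [le_div_iff₀ hr] at h1
    linarith
  · have h1 : D / ‖pl Q a - pl Q b‖ ≤
        (D + C0 ^ ((3 : ℝ) / 2) * W) / ‖pl Q a - pl Q b‖ := by
      apply div_le_div_of_nonneg_right _ hr.le
      have : 0 ≤ C0 ^ ((3 : ℝ) / 2) * W := by positivity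
      linarith
    linarith
  · have h1 := hmain E hE.le ψ φ hφ (conf m Q)
      (fun i j hij h => hQ i j hij (by
        have h2 := conf_sub m Q i j
        rw [h, sub_self] at h2
        exact sub_eq_zero.mp h2.symm))
      (conf_cen m hm Q) a b hab' _ hδ
      (fun i j hP => by
        rw [conf_sub]
        exact hmin2 (i, j) (Finset.mem_filter.mpr ⟨Finset.mem_univ _, hP⟩))
      hK
    have h2 : volume (Fib m E {x | NonW (Surf m E) φ x} Q) ≤
        ENNReal.ofReal (Real.sqrt (C0 / (‖pl Q c - pl Q d‖ * ke m E Q)) ^ 3) *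
          ENNReal.ofReal W := by
      rw [hWdef, ENNReal.ofReal_toReal hW]
      exact h1
    obtain ⟨K, hKe⟩ : ∃ K : ℝ, K = ke m E Q := ⟨_, rfl⟩
    obtain ⟨δ, hδe⟩ : ∃ δ : ℝ, δ = ‖pl Q c - pl Q d‖ := ⟨_, rfl⟩
    rw [← hKe, ← hδe] at h2 ⊢
    rw [← hδe] at hδ
    rw [← hKe] at hK
    refine (mul_le_mul_right h2 _).trans ?_
    rw [← ENNReal.ofReal_mul (by positivity), ← ENNReal.ofReal_mul (by positivity)]
    apply ENNReal.ofReal_le_ofReal
    have h3 : Real.sqrt (C0 / (δ * K)) ^ 3 =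
        C0 ^ ((3 : ℝ) / 2) * (δ ^ (-(3 / 2) : ℝ) * K ^ (-(3 / 2) : ℝ)) := by
      have h4 : 0 ≤ C0 / (δ * K) := by positivity
      rw [Real.sqrt_eq_rpow, ← Real.rpow_natCast, ← Real.rpow_mul h4,
        show (1 / 2 * ((3 : ℕ) : ℝ)) = (3 : ℝ) / 2 by norm_num, div_eq_mul_inv, mul_inv,
        Real.mul_rpow hC0.le (by positivity), Real.mul_rpow (by positivity) (by positivity),
        Real.inv_rpow hδ.le, Real.inv_rpow hK.le, ← Real.rpow_neg hδ.le, ← Real.rpow_neg hK.le]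
    have h5 : K ^ ((3 * (n : ℝ) - 2) / 2) * K ^ (-(3 / 2) : ℝ) =
        K ^ ((3 * (n : ℝ) - 5) / 2) := by
      rw [← Real.rpow_add hK]
      congr 1
      ring
    rw [h3]
    have h6 : K ^ ((3 * (n : ℝ) - 2) / 2) *
        (C0 ^ ((3 : ℝ) / 2) * (δ ^ (-(3 / 2) : ℝ) * K ^ (-(3 / 2) : ℝ)) * W) =
        C0 ^ ((3 : ℝ) / 2) * W * K ^ ((3 * (n : ℝ) - 5) / 2) * δ ^ (-(3 / 2) : ℝ) := by
      rw [← h5]
      ring
    rw [h6]
    have h7 : 0 ≤ K ^ ((3 * (n : ℝ) - 5) / 2) := by positivity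
    have h8 : 0 ≤ δ ^ (-(3 / 2) : ℝ) := by positivity
    apply mul_le_mul_of_nonneg_right _ h8
    apply mul_le_mul_of_nonneg_right _ h7
    linarith

end Run7.h930.DN.PTW
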