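import Pool.Agent.Run7.h852.DN.Stm

/-! # Project DN, piece DN_RAD -/

set_option autoImplicit false

namespace Run7.h930.DN.RAD

open MeasureTheory Set Run7.h852.DN
open Pool.Agent.Y516.NW (E3)

theorem t_RAD : RadStm := by
  intro s hs hs3
  let v : ℝ := (volume : Measure E3).real (Metric.ball 0 1)
  have hv : 0 ≤ v := ENNReal.toReal_nonneg
  refine ⟨3 * (v * (1 / (3 - s))), by
    have : 0 < 3 - s := by linarith
    positivity, fun ρ hρ => ?_⟩
  let f : ℝ → ℝ := (Iic ρ).indicator fun r => r ^ (-s)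
  have hf0 : ∀ x : E3, 0 ≤ f ‖x‖ := by
    intro x
    by_cases hx : ‖x‖ ∈ Iic ρ
    · show 0 ≤ (Iic ρ).indicator (fun r => r ^ (-s)) ‖x‖
      rw [indicator_of_mem hx]
      positivity
    · show 0 ≤ (Iic ρ).indicator (fun r => r ^ (-s)) ‖x‖
      rw [indicator_of_notMem hx]
  have h1 : ∀ x : E3, {x : E3 | ‖x‖ ≤ ρ}.indicator (fun x => ENNReal.ofReal (‖x‖ ^ (-s))) x =
      ENNReal.ofReal (f ‖x‖) := by
    intro x
    by_cases hx : ‖x‖ ≤ ρ
    · rw [indicator_of_mem (show x ∈ {x : E3 | ‖x‖ ≤ ρ} from hx)]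
      show _ = ENNReal.ofReal ((Iic ρ).indicator (fun r => r ^ (-s)) ‖x‖)
      rw [indicator_of_mem (show ‖x‖ ∈ Iic ρ from hx)]
    · rw [indicator_of_notMem (show x ∉ {x : E3 | ‖x‖ ≤ ρ} from hx)]
      show _ = ENNReal.ofReal ((Iic ρ).indicator (fun r => r ^ (-s)) ‖x‖)
      rw [indicator_of_notMem (show ‖x‖ ∉ Iic ρ from hx), ENNReal.ofReal_zero]
  simp only [h1]
  have hdim : Module.finrank ℝ E3 = 3 := by simp
  have e1 : (fun y : ℝ => y ^ (Module.finrank ℝ E3 - 1) • f y) =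
      (Iic ρ).indicator fun y => y ^ 2 * y ^ (-s) := by
    funext y
    rw [hdim]
    by_cases hy : y ∈ Iic ρ
    · show y ^ (3 - 1) • (Iic ρ).indicator (fun r => r ^ (-s)) y = _
      rw [indicator_of_mem hy, indicator_of_mem hy]
      rfl
    · show y ^ (3 - 1) • (Iic ρ).indicator (fun r => r ^ (-s)) y = _
      rw [indicator_of_notMem hy, indicator_of_notMem hy, smul_zero]
  have e2 : Ioi (0 : ℝ) ∩ Iic ρ = Ioc 0 ρ := rfl
  have e3 : EqOn (fun y : ℝ => y ^ 2 * y ^ (-s)) (fun y => y ^ (2 - s)) (Ioc 0 ρ) := by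
    intro y hy
    show y ^ 2 * y ^ (-s) = y ^ (2 - s)
    rw [← Real.rpow_natCast, ← Real.rpow_add hy.1]
    norm_num
    ring_nf
  have hint : IntervalIntegrable (fun y : ℝ => y ^ (2 - s)) volume 0 ρ :=
    intervalIntegral.intervalIntegrable_rpow' (by linarith)
  have hi : Integrable (fun x : E3 => f ‖x‖) := by
    rw [integrable_fun_norm_addHaar (μ := (volume : Measure E3)), e1]
    rw [integrableOn_indicator_iff measurableSet_Iic, inter_comm, e2]
    exact (((intervalIntegrable_iff_integrableOn_Ioc_of_le hρ.le).mp hint).congr_fun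
      (fun y hy => (e3 hy).symm) measurableSet_Ioc)
  rw [← ofReal_integral_eq_lintegral_ofReal hi (Filter.Eventually.of_forall hf0)]
  apply ENNReal.ofReal_le_ofReal
  rw [integral_fun_norm_addHaar, e1, setIntegral_indicator measurableSet_Iic, e2,
    setIntegral_congr_fun measurableSet_Ioc e3, ← intervalIntegral.integral_of_le hρ.le,
    integral_rpow (Or.inl (by linarith)), hdim]
  have e4 : (0 : ℝ) ^ (2 - s + 1) = 0 := Real.zero_rpow (by linarith)
  have e5 : (2 - s + 1 : ℝ) = 3 - s := by ring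
  rw [e4, e5, sub_zero]
  show 3 • (v • (ρ ^ (3 - s) / (3 - s))) ≤ _
  rw [nsmul_eq_mul, smul_eq_mul]
  push_cast
  apply le_of_eq
  ring

end Run7.h930.DN.RAD
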