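import Pool.Agent.Run7.h852.DN.Stm

/-! # Project DN, piece DN_SURJ -/

set_option autoImplicit false

namespace Run7.h930.DN.SURJ

open Run7.h852.DN
open Pool.Agent.Y516.NW (E3)

/-- the position of a body as a linear function -/
noncomputable def pj {n : ℕ} (a : Fin (n + 1)) : (Fin n → E3) →ₗ[ℝ] E3 :=
  Fin.lastCases (motive := fun _ => (Fin n → E3) →ₗ[ℝ] E3) 0 (fun b => LinearMap.proj b) a

lemma pj_apply {n : ℕ} (a : Fin (n + 1)) (Q : Fin n → E3) : pj a Q = pl Q a := by
  refine Fin.lastCases ?_ (fun b => ?_) a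
  · simp [pj, pl]
  · simp [pj, pl]

lemma pl_sub {n : ℕ} (s : Fin (n + 1) → E3) (a b : Fin (n + 1)) :
    pl (fun k : Fin n => s k.castSucc - s (Fin.last n)) a -
      pl (fun k : Fin n => s k.castSucc - s (Fin.last n)) b = s a - s b := by
  have h : ∀ a : Fin (n + 1), pl (fun k : Fin n => s k.castSucc - s (Fin.last n)) a =
      s a - s (Fin.last n) := by
    intro a
    refine Fin.lastCases ?_ (fun b => ?_) a
    · simp [pl]
    · simp [pl]
  rw [h, h]
  abel

theorem t_SURJ : SurjStm := by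
  intro n i j k l hij hkl h1 h2
  refine ⟨(pj i - pj j).prod (pj k - pj l), ?_, ?_⟩
  · rintro ⟨u, v⟩
    suffices h : ∃ s : Fin (n + 1) → E3, s i - s j = u ∧ s k - s l = v by
      obtain ⟨s, hu, hv⟩ := h
      refine ⟨fun a : Fin n => s a.castSucc - s (Fin.last n), ?_⟩
      show ((pj i - pj j) _, (pj k - pj l) _) = (u, v)
      rw [LinearMap.sub_apply, LinearMap.sub_apply, pj_apply,
        pj_apply, pj_apply, pj_apply, pl_sub, pl_sub, hu, hv]
    -- one body of each pair which is not in the other one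
    have hx : (i ≠ k ∧ i ≠ l) ∨ (j ≠ k ∧ j ≠ l) := by
      by_contra hcon
      rw [not_or, not_and_or, not_and_or, not_not, not_not, not_not, not_not] at hcon
      rcases hcon with ⟨h3 | h3, h4 | h4⟩
      · exact hij (h3.trans h4.symm)
      · exact h1 ⟨h3, h4⟩
      · exact h2 ⟨h3, h4⟩
      · exact hij (h3.trans h4.symm)
    have hy : (k ≠ i ∧ k ≠ j) ∨ (l ≠ i ∧ l ≠ j) := by
      by_contra hcon
      rw [not_or, not_and_or, not_and_or, not_not, not_not, not_not, not_not] at hcon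
      rcases hcon with ⟨h3 | h3, h4 | h4⟩
      · exact hkl (h3.trans h4.symm)
      · exact h1 ⟨h3.symm, h4.symm⟩
      · exact h2 ⟨h4.symm, h3.symm⟩
      · exact hkl (h3.trans h4.symm)
    rcases hx with ⟨h3, h4⟩ | ⟨h3, h4⟩ <;> rcases hy with ⟨h5, h6⟩ | ⟨h5, h6⟩
    · refine ⟨Pi.single i u + Pi.single k v, ?_, ?_⟩
      · simp [Pi.single_eq_of_ne h3, Pi.single_eq_of_ne hij.symm, Pi.single_eq_of_ne h6.symm]
      · simp [Pi.single_eq_of_ne h5, Pi.single_eq_of_ne h4.symm, Pi.single_eq_of_ne hkl.symm]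
    · refine ⟨Pi.single i u + Pi.single l (-v), ?_, ?_⟩
      · simp [Pi.single_eq_of_ne h4, Pi.single_eq_of_ne hij.symm, Pi.single_eq_of_ne h6.symm]
      · simp [Pi.single_eq_of_ne h5, Pi.single_eq_of_ne h3.symm, Pi.single_eq_of_ne hkl]
    · refine ⟨Pi.single j (-u) + Pi.single k v, ?_, ?_⟩
      · simp [Pi.single_eq_of_ne h3, Pi.single_eq_of_ne hij, Pi.single_eq_of_ne h5.symm]
      · simp [Pi.single_eq_of_ne h6, Pi.single_eq_of_ne h4.symm, Pi.single_eq_of_ne hkl.symm]
    · refine ⟨Pi.single j (-u) + Pi.single l (-v), ?_, ?_⟩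
      · simp [Pi.single_eq_of_ne h4, Pi.single_eq_of_ne hij, Pi.single_eq_of_ne h5.symm]
      · simp [Pi.single_eq_of_ne h6, Pi.single_eq_of_ne h3.symm, Pi.single_eq_of_ne hkl]
  · intro Q
    show ((pj i - pj j) Q, (pj k - pj l) Q) = _
    rw [LinearMap.sub_apply, LinearMap.sub_apply, pj_apply, pj_apply, pj_apply, pj_apply]

end Run7.h930.DN.SURJ
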