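import Pool.Agent.Run7.h378.IfaceF

/-!
# Piece F6 (choice of captured elements and of `m`) of MP_5766af_al
-/

noncomputable section

namespace Pool.Agent.Run7.h930.Ch

open Polynomial Finset

/-- Lagrange interpolation with a group action. -/
lemma lagr {H : Type} [Field H] (F : Subfield H) (g : H ≃+* H) (hg : ∀ h ∈ F, g h ∈ F) (n : ℕ)
    (hn : 0 < n) (z e : H) (hz : z ∈ F) (he : e ∈ F) (hzn : g^[n] z = z) (hen : g^[n] e = e)
    (hne : ∀ i, 0 < i → i < n → g^[i] z ≠ z) :
    ∃ c : ℕ → H, (∀ k, c k ∈ F ∧ g (c k) = c k) ∧ e = ∑ k ∈ range n, c k * z ^ k := by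
  have hit : ∀ (i : ℕ) (h : H), h ∈ F → g^[i] h ∈ F := by
    intro i
    induction i with
    | zero => intro h hh; exact hh
    | succ i ih => intro h hh; rw [Function.iterate_succ_apply']; exact hg _ (ih h hh)
  let v : ℕ → F := fun i => ⟨g^[i] z, hit i z hz⟩
  let r : ℕ → F := fun i => ⟨g^[i] e, hit i e he⟩
  have hginj : ∀ i, Function.Injective (g^[i]) := fun i => g.injective.iterate i
  have hlt : ∀ i j, i < j → j < n → g^[i] z ≠ g^[j] z := by
    intro i j hij hj h
    obtain ⟨d, rfl⟩ := Nat.exists_eq_add_of_lt hij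
    have h1 : g^[i] z = g^[i] (g^[d + 1] z) := by
      rw [← Function.iterate_add_apply]
      rw [h]
      congr 1
    exact hne (d + 1) (by omega) (by omega) (hginj i h1).symm
  have hv : Set.InjOn v (range n : Set ℕ) := by
    intro i hi j hj hij
    have h1 : g^[i] z = g^[j] z := congrArg Subtype.val hij
    have hi' : i < n := by simpa using hi
    have hj' : j < n := by simpa using hj
    rcases lt_trichotomy i j with h | h | h
    · exact absurd h1 (hlt i j h hj')
    · exact h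
    · exact absurd h1.symm (hlt j i h hi')
  set p : F[X] := Lagrange.interpolate (range n) v r with hp
  have hdeg : p.degree < (range n).card := Lagrange.degree_interpolate_lt r hv
  have hval : ∀ i ∈ range n, eval (v i) p = r i := fun i hi =>
    Lagrange.eval_interpolate_at_node r hv hi
  set P : H[X] := p.map F.subtype with hP
  have hPdeg : P.degree < (range n).card := lt_of_le_of_lt degree_map_le hdeg
  have hPval : ∀ i < n, eval (g^[i] z) P = g^[i] e := by
    intro i hi
    have h1 := hval i (mem_range.2 hi)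
    have h2 : eval (g^[i] z) P = F.subtype (eval (v i) p) := by
      rw [hP]
      have : g^[i] z = F.subtype (v i) := rfl
      rw [this, eval_map_apply]
    rw [h2, h1]
    rfl
  have hV : Set.InjOn (fun i => g^[i] z) (range n : Set ℕ) := by
    intro i hi j hj hij
    exact hv hi hj (Subtype.ext hij)
  have hPg : P.map (g : H →+* H) = P := by
    refine Polynomial.eq_of_degrees_lt_of_eval_index_eq (v := fun i => g^[i] z) (range n) hV
      (lt_of_le_of_lt degree_map_le hPdeg) hPdeg ?_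
    intro i hi
    have hi' : i < n := mem_range.1 hi
    have h3 : ∀ a : H, eval (g a) (P.map (g : H →+* H)) = g (eval a P) := by
      intro a
      exact eval_map_apply (g : H →+* H) a
    change eval (g^[i] z) _ = eval (g^[i] z) _
    rw [hPval i hi']
    rcases Nat.eq_zero_or_pos i with rfl | hpos
    · obtain ⟨k, rfl⟩ : ∃ k, n = k + 1 := ⟨n - 1, by omega⟩
      have h4 : g^[0] z = g (g^[k] z) := by
        rw [← Function.iterate_succ_apply' g k z, hzn]; rfl
      rw [h4, h3, hPval k (by omega), ← Function.iterate_succ_apply' g k e, hen]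
      rfl
    · obtain ⟨k, rfl⟩ : ∃ k, i = k + 1 := ⟨i - 1, by omega⟩
      rw [Function.iterate_succ_apply', h3, hPval k (by omega), Function.iterate_succ_apply']
  refine ⟨fun k => P.coeff k, fun k => ⟨?_, ?_⟩, ?_⟩
  · change (p.map F.subtype).coeff k ∈ F
    rw [coeff_map]
    exact (p.coeff k).2
  · have := congrArg (fun q : H[X] => q.coeff k) hPg
    simpa [coeff_map] using this
  · have h5 := hPval 0 hn
    have h6 : P.natDegree < n := by
      by_cases h0 : P = 0
      · rw [h0]; simpa using hn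
      · have := hPdeg
        rw [card_range] at this
        exact (natDegree_lt_iff_degree_lt h0).2 this
    rw [eval_eq_sum_range' h6] at h5
    exact h5.symm

/-- Denominators, abstract form. -/
lemma denom' {A K H : Type} [CommRing A] [IsDomain A] [Field K] [Field H] [Algebra A K]
    [Algebra K H] [Algebra A H] [IsScalarTower A K H]
    (h : ∀ k : K, ∃ a b : A, b ≠ 0 ∧ algebraMap A K b * k = algebraMap A K a) (y : H)
    (hy : IsAlgebraic K y) : ∃ q : A, q ≠ 0 ∧ IsIntegral A (algebraMap A H q * y) := by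
  have hA : Algebra.IsAlgebraic A K := by
    refine ⟨fun k => ?_⟩
    obtain ⟨a, b, hb, hab⟩ := h k
    refine ⟨C b * X - C a, ?_, ?_⟩
    · intro h0
      have := congrArg (fun q => coeff q 1) h0
      simp only [coeff_sub, coeff_C_mul, coeff_X_one, mul_one, coeff_C_of_ne_zero one_ne_zero,
        sub_zero, coeff_zero] at this
      exact hb this
    · simp only [map_sub, map_mul, aeval_C, aeval_X]
      rw [hab, sub_self]
  have h1 : IsAlgebraic A y := hy.restrictScalars _
  obtain ⟨q, hq, hi⟩ := h1.exists_integral_multiple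
  exact ⟨q, hq, by rwa [Algebra.smul_def] at hi⟩

/-- Denominators, subring form. -/
lemma denomS {H : Type} [Field H] (A : Subring H) (F : Subfield H) (hle : A ≤ F.toSubring)
    (hF : ∀ k ∈ F, ∃ a ∈ A, ∃ b ∈ A, a / b = k) (y : H) (hy : IsAlgebraic F y) :
    ∃ q ∈ A, q ≠ 0 ∧ IsIntegral A (q * y) := by
  let a1 : Algebra A F := (Subring.inclusion hle).toAlgebra
  have t1 : IsScalarTower A F H := IsScalarTower.of_algebraMap_eq (fun _ => rfl)
  obtain ⟨q, hq, hi⟩ := denom' (A := A) (K := F) (fun k => by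
      obtain ⟨a, ha, b, hb, hab⟩ := hF k k.2
      by_cases hb0 : b = 0
      · have hk : (k : H) = 0 := by rw [← hab, hb0, div_zero]
        refine ⟨0, 1, one_ne_zero, Subtype.ext ?_⟩
        change (1 : H) * (k : H) = 0
        rw [hk, mul_zero]
      · refine ⟨⟨a, ha⟩, ⟨b, hb⟩, fun h => hb0 (congrArg Subtype.val h), Subtype.ext ?_⟩
        change b * (k : H) = a
        rw [← hab]
        field_simp) y hy
  exact ⟨q, q.2, fun h => hq (Subtype.ext h), hi⟩

/-- Denominators. -/
lemma denom {H : Type} [Field H] (S : Set H) (y : H)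
    (hy : IsAlgebraic (Subfield.closure S) y) :
    ∃ q ∈ Subring.closure S, q ≠ 0 ∧ IsIntegral (Subring.closure S) (q * y) :=
  denomS _ _ (Subring.closure_le.2 Subfield.subset_closure)
    (fun _ hk => Subfield.mem_closure_iff.1 hk) y hy

open Pool.Agent.Run7.h378 in
/-- PIECE F6. -/
theorem p_cho : S_cho := by
  classical
  intro _ E _ _ R hKs eps _ hM P₀ l S hF e he
  obtain ⟨F, hFM⟩ := hM.field S.P
  have hmem : ∀ h, h ∈ F ↔ h ∈ Mf R eps S.P := fun h => by
    rw [← hFM]; rfl
  have hgF : ∀ h ∈ F, S.g h ∈ F := fun h hh => (hmem _).2 (hF.g_Mf h ((hmem _).1 hh))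
  -- captured coefficients
  have hc : ∀ j, ∃ c : ℕ → LaurentSeries E, (∀ k, c k ∈ F ∧ S.g (c k) = c k) ∧
      (j ≤ l → S.g^[2 ^ j] e = e → e = ∑ k ∈ range (2 ^ j),
        c k * (Nm (S.g^[2 ^ j]) (2 ^ (l - j)) (eH R.x)) ^ k) := by
    intro j
    by_cases hj : j ≤ l ∧ S.g^[2 ^ j] e = e
    · obtain ⟨c, hc1, hc2⟩ := lagr F S.g hgF (2 ^ j) (by positivity)
        (Nm (S.g^[2 ^ j]) (2 ^ (l - j)) (eH R.x)) e ((hmem _).2 (hF.zj_mem j hj.1))
        ((hmem _).2 he) (hF.zj_g j hj.1) hj.2 (hF.zj_ne j hj.1)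
      exact ⟨c, hc1, fun _ _ => hc2⟩
    · refine ⟨fun _ => 0, fun k => ⟨F.zero_mem, map_zero _⟩, fun h1 h2 => absurd ⟨h1, h2⟩ hj⟩
  choose c hc1 hc2 using hc
  set zz := zl R S.g l with hzz
  set T : Finset (LaurentSeries E) :=
    insert zz ((range (l + 1) ×ˢ range (2 ^ l)).image fun p => c p.1 p.2) with hT
  have hTmem : ∀ y ∈ T, y ∈ Mf R eps S.P ∧ S.g y = y := by
    intro y hy
    rcases Finset.mem_insert.1 hy with rfl | hy
    · exact ⟨hF.z_mem, hF.z_g⟩
    · obtain ⟨p, _, rfl⟩ := Finset.mem_image.1 hy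
      exact ⟨(hmem _).1 (hc1 p.1 p.2).1, (hc1 p.1 p.2).2⟩
  have hTz : zz ∈ T := Finset.mem_insert_self _ _
  have hTc : ∀ j k, j ≤ l → k < 2 ^ j → c j k ∈ T := by
    intro j k hj hk
    refine Finset.mem_insert_of_mem (Finset.mem_image.2 ⟨(j, k), ?_, rfl⟩)
    refine Finset.mem_product.2 ⟨mem_range.2 (by omega), mem_range.2 ?_⟩
    exact lt_of_lt_of_le hk (Nat.pow_le_pow_right (by norm_num) hj)
  let Y : Fin T.card → LaurentSeries E := fun i => T.equivFin.symm i
  have hYT : ∀ i, Y i ∈ T := fun i => (T.equivFin.symm i).2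
  have hTY : ∀ y ∈ T, ∃ i, Y i = y := fun y hy => ⟨T.equivFin ⟨y, hy⟩, by simp [Y]⟩
  -- the element `w`
  obtain ⟨w, hw1, hw2, hw3, hw4⟩ : ∃ w, w ∈ Mf R eps S.P ∧ S.g w = w ∧ w ∉ Ks ∧
      (Nm S.g (2 ^ l) e ∉ Ks → w = Nm S.g (2 ^ l) e) := by
    by_cases h : Nm S.g (2 ^ l) e ∈ Ks
    · exact ⟨zz, hF.z_mem, hF.z_g, hF.z_Ks, fun h' => absurd h h'⟩
    · exact ⟨Nm S.g (2 ^ l) e, hF.nm_mem e he, hF.nm_g e, h, fun _ => rfl⟩
  have hw0 : w ≠ 0 := by
    intro h
    apply hw3
    obtain ⟨F', hF'⟩ := hKs.field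
    rw [h, ← hF']
    exact F'.zero_mem
  set A := Subring.closure ((Mf R eps S.P ∩ Ks) ∪ {w}) with hA
  have hq : ∀ i, ∃ q ∈ A, q ≠ 0 ∧ IsIntegral A (q * Y i) := fun i =>
    denom _ _ (hM.inter S.P w (Y i) hw1 hw3 (hTmem _ (hYT i)).1)
  choose q hq1 hq2 hq3 using hq
  set Q := ∏ i, q i with hQ
  have hQA : Q ∈ A := A.prod_mem fun i _ => hq1 i
  have hQ0 : Q ≠ 0 := Finset.prod_ne_zero_iff.2 fun i _ => hq2 i
  have hAM : ∀ a ∈ A, a ∈ Mf R eps S.P ∧ S.g a = a := by
    intro a ha
    have hle : A ≤ F.toSubring ⊓ (RingHom.eqLocus (S.g : LaurentSeries E →+* LaurentSeries E)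
        (RingHom.id _)) := by
      refine Subring.closure_le.2 ?_
      rintro y (hy | hy)
      · exact ⟨(hmem _).2 hy.1, hKs.fixed _ _ S.adm _ hy.2⟩
      · rw [Set.mem_singleton_iff] at hy
        rw [hy]
        exact ⟨(hmem _).2 hw1, hw2⟩
    have := hle ha
    exact ⟨(hmem _).1 this.1, this.2⟩
  have hintA : ∀ a ∈ A, IsIntegral A a := fun a ha =>
    isIntegral_algebraMap (x := (⟨a, ha⟩ : A))
  refine ⟨{ n := T.card
            Y := Y
            Y_mem := fun i => hTmem _ (hYT i)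
            z_Y := hTY _ hTz
            cap := ?_
            w := w
            w_mem := ⟨hw1, hw2⟩
            w_Ks := hw3
            w_eq := hw4
            m := w * Q
            m_mem := ⟨?_, ?_⟩
            m_ne := mul_ne_zero hw0 hQ0
            int_m := ?_
            int_mY := ?_ }⟩
  · intro j hj hej
    have h1 := hc2 j hj hej
    set ζj := Nm (S.g^[2 ^ j]) (2 ^ (l - j)) (eH R.x) with hζj
    rw [h1]
    refine Subfield.sum_mem _ fun k hk => Subfield.mul_mem _ ?_ (Subfield.pow_mem _ ?_ _)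
    · refine Subfield.subset_closure (Or.inl ?_)
      obtain ⟨i, hi⟩ := hTY _ (hTc j k hj (mem_range.1 hk))
      exact ⟨i, hi⟩
    · exact Subfield.subset_closure (Or.inr rfl)
  · exact (hmem _).1 (F.mul_mem ((hmem _).2 hw1) ((hmem _).2 (hAM Q hQA).1))
  · rw [map_mul, hw2, (hAM Q hQA).2]
  · rw [mul_div_assoc, mul_comm, div_mul_cancel₀ _ hw0]
    exact hintA Q hQA
  · intro i
    have h1 : w * Q * Y i / w = (∏ j ∈ univ.erase i, q j) * (q i * Y i) := by
      rw [← mul_assoc, Finset.prod_erase_mul _ _ (mem_univ i), ← hQ]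
      field_simp
    rw [h1]
    exact (hintA _ (A.prod_mem fun j _ => hq1 j)).mul (hq3 i)

end Pool.Agent.Run7.h930.Ch
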