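import Mathlib
import Pool.Agent.Run7.h378.IfaceF

/-!
# Residue data: general lemmas (MP_5766af_al, piece F1)
-/

noncomputable section

namespace Pool.Agent.Run7.h930.Rs

open PowerSeries

/-- Square roots of power series. -/
lemma exists_sqrt (p : ℂ⟦X⟧) (hp : constantCoeff p ≠ 0) : ∃ q : ℂ⟦X⟧, q ^ 2 = p := by
  obtain ⟨d, hd⟩ := IsAlgClosed.exists_pow_nat_eq (constantCoeff p) (n := 2) (by norm_num)
  set f : ℂ⟦X⟧ := binomialSeries ℂ (1 / 2 : ℚ) with hf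
  have hf2 : f ^ 2 = 1 + X := by
    rw [hf, sq, ← binomialSeries_add]
    have : (1 / 2 + 1 / 2 : ℚ) = ((1 : ℕ) : ℚ) := by norm_num
    rw [this, binomialSeries_nat, pow_one]
  set a : ℂ⟦X⟧ := C (constantCoeff p)⁻¹ * p - 1 with ha
  have hc : constantCoeff a = 0 := by
    simp [ha, hp]
  have hs : HasSubst a := HasSubst.of_constantCoeff_zero' hc
  refine ⟨C d * f.subst a, ?_⟩
  have h2 : (f.subst a) ^ 2 = 1 + a := by
    rw [← subst_pow hs, hf2, subst_add hs]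
    congr 1
    · rw [← coe_substAlgHom hs, map_one]
    · exact subst_X hs
  rw [mul_pow, h2, ha, ← map_pow, hd]
  rw [add_sub_cancel, ← mul_assoc, ← map_mul, mul_inv_cancel₀ hp, map_one, one_mul]

lemma exists_sqrt_even (p : ℂ⟦X⟧) (hp : constantCoeff p ≠ 0) (he : rescale (-1) p = p) :
    ∃ q : ℂ⟦X⟧, q ^ 2 = p ∧ rescale (-1) q = q := by
  obtain ⟨q, hq⟩ := exists_sqrt p hp
  refine ⟨q, hq, ?_⟩
  have h1 : (rescale (-1) q) ^ 2 = q ^ 2 := by rw [← map_pow, hq, he]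
  rcases sq_eq_sq_iff_eq_or_eq_neg.1 h1 with h | h
  · exact h
  · exfalso
    have h2 := congrArg constantCoeff h
    have h3 : constantCoeff (rescale (-1 : ℂ) q) = constantCoeff q := by
      rw [← coeff_zero_eq_constantCoeff_apply, ← coeff_zero_eq_constantCoeff_apply, coeff_rescale]
      simp
    rw [h3, map_neg] at h2
    have h4 : constantCoeff q = 0 := by
      have : (2 : ℂ) * constantCoeff q = 0 := by linear_combination h2
      simpa using this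
    apply hp
    rw [← hq, map_pow, h4]
    simp

/-- An element of an extension of `ℂ` which is not a constant is transcendental. -/
lemma transc {M : Type*} [Field M] [Algebra ℂ M] (x : M)
    (hx : x ∉ Set.range (algebraMap ℂ M)) : Transcendental ℂ x := by
  intro h
  apply hx
  have hi := h.isIntegral
  have := IsAlgClosed.degree_eq_one_of_irreducible ℂ (minpoly.irreducible hi)
  exact minpoly.mem_range_of_degree_eq_one ℂ x this

section Transfer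

variable {I : Type} {E M : Type} [Field E] [Field M] [Algebra ℂ E] [Algebra ℂ M]

/-- `E` is generated by `ℂ`, `x` and the `y i`. -/
def Gen (x : E) (y : I → E) : Prop :=
  ∀ K : Subfield E, (∀ c : ℂ, algebraMap ℂ E c ∈ K) → x ∈ K → (∀ i, y i ∈ K) → ∀ e, e ∈ K

lemma Gen.ext {x : E} {y : I → E} (hG : Gen x y) {L : Type*} [Field L] (φ ψ : E →+* L)
    (h0 : ∀ c : ℂ, φ (algebraMap ℂ E c) = ψ (algebraMap ℂ E c)) (h1 : φ x = ψ x)
    (h2 : ∀ i, φ (y i) = ψ (y i)) : φ = ψ := by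
  ext e
  exact hG (RingHom.eqLocusField φ ψ) h0 h1 h2 e

lemma Gen.algExt {x : E} {y : I → E} (hG : Gen x y) (φ ψ : E →ₐ[ℂ] M)
    (h1 : φ x = ψ x) (h2 : ∀ i, φ (y i) = ψ (y i)) : φ = ψ := by
  have := hG.ext (φ : E →+* M) (ψ : E →+* M) (by intro c; simp) h1 h2
  ext e
  exact DFunLike.congr_fun this e

open Polynomial in
lemma transfer (x : E) (y : I → E) (f : I → ℂ[X]) (hG : Gen x y)
    (hx : Transcendental ℂ x) (hy : ∀ i, y i ^ 2 = aeval x (f i))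
    (x' : M) (y' : I → M) (hx' : Transcendental ℂ x') (hy' : ∀ i, y' i ^ 2 = aeval x' (f i)) :
    ∃ j : E →ₐ[ℂ] M, j x = x' ∧ ∀ i, j (y i) = y' i ∨ j (y i) = - y' i := by
  have h1 : Function.Injective (aeval x : ℂ[X] →ₐ[ℂ] E).toRingHom :=
    transcendental_iff_injective.1 hx
  have h2 : Function.Injective (aeval x' : ℂ[X] →ₐ[ℂ] M).toRingHom :=
    transcendental_iff_injective.1 hx'
  let F := FractionRing ℂ[X]
  let a1 : Algebra F E := (IsFractionRing.lift (K := F) h1).toAlgebra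
  let a2 : Algebra F M := (IsFractionRing.lift (K := F) h2).toAlgebra
  have e1 : ∀ p : ℂ[X], algebraMap F E (algebraMap ℂ[X] F p) = aeval x p := by
    intro p
    exact IsFractionRing.lift_algebraMap h1 p
  have e2 : ∀ p : ℂ[X], algebraMap F M (algebraMap ℂ[X] F p) = aeval x' p := by
    intro p
    exact IsFractionRing.lift_algebraMap h2 p
  have hS : IntermediateField.adjoin F (Set.range y) = ⊤ := by
    rw [eq_top_iff]
    intro e _
    refine hG (IntermediateField.adjoin F (Set.range y)).toSubfield ?_ ?_ ?_ e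
    · intro c
      have : algebraMap ℂ E c = algebraMap F E (algebraMap ℂ[X] F (Polynomial.C c)) := by
        rw [e1, aeval_C]
      rw [this]
      exact (IntermediateField.adjoin F (Set.range y)).algebraMap_mem _
    · have : x = algebraMap F E (algebraMap ℂ[X] F Polynomial.X) := by
        rw [e1, aeval_X]
      rw [this]
      exact (IntermediateField.adjoin F (Set.range y)).algebraMap_mem _
    · intro i
      exact IntermediateField.subset_adjoin F _ ⟨i, rfl⟩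
  have hK : ∀ s ∈ Set.range y, IsIntegral F s ∧ ((minpoly F s).map (algebraMap F M)).Splits := by
    rintro _ ⟨i, rfl⟩
    let P : Polynomial F := Polynomial.X ^ 2 - Polynomial.C (algebraMap ℂ[X] F (f i))
    have hP : P.Monic := Polynomial.monic_X_pow_sub_C _ (by norm_num)
    have hPe : aeval (y i) P = 0 := by
      simp only [P, map_sub, map_pow, aeval_X, aeval_C, hy, e1, sub_self]
    refine ⟨⟨P, hP, hPe⟩, ?_⟩
    have hdvd : minpoly F (y i) ∣ P := minpoly.dvd F _ hPe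
    have hPs : (P.map (algebraMap F M)).Splits := by
      have : P.map (algebraMap F M) = (Polynomial.X - Polynomial.C (y' i)) *
          (Polynomial.X - Polynomial.C (- y' i)) := by
        simp only [P, Polynomial.map_sub, Polynomial.map_pow, Polynomial.map_X, Polynomial.map_C,
          e2, ← hy' i, map_neg, map_pow]
        ring
      rw [this]
      exact (Polynomial.Splits.X_sub_C _).mul (Polynomial.Splits.X_sub_C _)
    refine hPs.of_dvd ?_ ?_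
    · exact (hP.map _).ne_zero
    · exact Polynomial.map_dvd _ hdvd
  obtain ⟨j⟩ := IntermediateField.nonempty_algHom_of_adjoin_splits (K := M) hK hS
  have hjc : ∀ c : ℂ, j (algebraMap ℂ E c) = algebraMap ℂ M c := by
    intro c
    have h3 : algebraMap ℂ E c = algebraMap F E (algebraMap ℂ[X] F (Polynomial.C c)) := by
      rw [e1, aeval_C]
    rw [h3, j.commutes, e2, aeval_C]
  have hjp : ∀ p : ℂ[X], j (aeval x p) = aeval x' p := by
    intro p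
    rw [← e1, j.commutes, e2]
  refine ⟨{ (j : E →+* M) with commutes' := hjc }, ?_, ?_⟩
  · have := hjp Polynomial.X
    rwa [aeval_X, aeval_X] at this
  · intro i
    have h4 : (j (y i)) ^ 2 = (y' i) ^ 2 := by
      rw [← map_pow, hy, hjp, hy']
    exact sq_eq_sq_iff_eq_or_eq_neg.1 h4

/-- Descend an endomorphism along an embedding. -/
lemma descend (x : E) (y : I → E) (hG : Gen x y) (j : E →ₐ[ℂ] M) (ν : M →ₐ[ℂ] M)
    (x1 : E) (y1 : I → E) (h1 : ν (j x) = j x1) (h2 : ∀ i, ν (j (y i)) = j (y1 i)) :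
    ∃ μ : E →ₐ[ℂ] E, μ x = x1 ∧ ∀ i, μ (y i) = y1 i := by
  have hr : ∀ e : E, (ν.comp j) e ∈ j.range := by
    intro e
    have := hG ((j : E →+* M).fieldRange.comap ((ν.comp j : E →ₐ[ℂ] M) : E →+* M)) ?_ ?_ ?_ e
    · obtain ⟨e', he'⟩ := this
      exact ⟨e', he'⟩
    · intro c
      refine ⟨algebraMap ℂ E c, ?_⟩
      simp
    · exact ⟨x1, h1.symm⟩
    · intro i
      exact ⟨y1 i, (h2 i).symm⟩
  let μ : E →ₐ[ℂ] E :=
    ((AlgEquiv.ofInjectiveField j).symm : j.range →ₐ[ℂ] E).comp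
      ((ν.comp j).codRestrict j.range hr)
  have hμ : ∀ e, j (μ e) = ν (j e) := by
    intro e
    have : (AlgEquiv.ofInjectiveField j) (μ e) = (ν.comp j).codRestrict j.range hr e := by
      simp [μ]
    exact congrArg Subtype.val this
  have hinj : Function.Injective j := (j : E →+* M).injective
  exact ⟨μ, hinj (by rw [hμ, h1]), fun i => hinj (by rw [hμ, h2])⟩

end Transfer


section Final

open Finset

/-- All the structure needed on `E`. -/
structure Pre (E : Type) [Field E] [Algebra ℂ E] where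
  x : E
  y : ℂˣ → E
  gen : Gen x y
  x_tr : x ∉ Set.range (algebraMap ℂ E)
  hy : ∀ ζ : ℂˣ, y ζ ^ 2 = algebraMap ℂ E ζ * x - 1
  ρ : ℂˣ → E →ₐ[ℂ] E
  ρ_x : ∀ a : ℂˣ, ρ a x = algebraMap ℂ E a * x
  ρ_y : ∀ a ζ : ℂˣ, ρ a (y ζ) = y (ζ * a)
  ε : E →ₐ[ℂ] E
  ε_x : ε x = x
  ε_y : ∀ ζ, ε (y ζ) = - y ζ
  loc : ∀ ζ₀, ∃ μ : E →ₐ[ℂ] E, μ x = x ∧ μ (y ζ₀) = - y ζ₀ ∧ ∀ ζ, ζ ≠ ζ₀ → μ (y ζ) = y ζ

/-- compatible roots of unity -/
def zt (l : ℕ) : ℂˣ :=
  Units.mk0 (Complex.exp (2 * Real.pi * Complex.I / 2 ^ l)) (Complex.exp_ne_zero _)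

lemma zt_zero : zt 0 = 1 := by
  ext
  simp [zt, Complex.exp_two_pi_mul_I]

lemma zt_one : zt 1 = -1 := by
  ext
  simp only [zt, Units.val_mk0, Units.val_neg, Units.val_one]
  have : (2 * Real.pi * Complex.I / 2 ^ 1 : ℂ) = Real.pi * Complex.I := by ring
  rw [this, Complex.exp_pi_mul_I]

lemma zt_sq (l : ℕ) : zt (l + 1) ^ 2 = zt l := by
  ext
  simp only [zt, Units.val_mk0, Units.val_pow_eq_pow_val]
  rw [← Complex.exp_nat_mul]
  congr 1
  push_cast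
  field_simp
  ring

lemma zt_pow (l : ℕ) : zt l ^ (2 ^ l) = 1 := by
  induction l with
  | zero => simp [zt_zero]
  | succ l ih => rw [pow_succ', pow_mul, zt_sq, ih]

lemma zt_pow' (l : ℕ) : zt (l + 1) ^ (2 ^ l) = -1 := by
  induction l with
  | zero => simp [zt_one]
  | succ l ih => rw [pow_succ', pow_mul, zt_sq, ih]

lemma zt_lt (l d : ℕ) : zt l ≠ zt (l + d + 1) := by
  intro h
  have h1 := congrArg (fun z : ℂˣ => z ^ (2 ^ (l + d))) h
  simp only [zt_pow'] at h1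
  rw [pow_add, pow_mul, zt_pow, one_pow] at h1
  have h2 := congrArg Units.val h1
  norm_num at h2

lemma zt_inj : Function.Injective zt := by
  intro a b hab
  rcases lt_trichotomy a b with h | h | h
  · obtain ⟨d, rfl⟩ := Nat.exists_eq_add_of_lt h
    exact absurd hab (zt_lt a d)
  · exact h
  · obtain ⟨d, rfl⟩ := Nat.exists_eq_add_of_lt h
    exact absurd hab.symm (zt_lt b d)

lemma zt_avoid (T : Finset ℂˣ) : ∃ m, ∀ l, m ≤ l → zt l ∉ T := by
  have hf : (zt ⁻¹' (T : Set ℂˣ)).Finite := T.finite_toSet.preimage zt_inj.injOn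
  obtain ⟨m, hm⟩ := hf.bddAbove
  refine ⟨m + 1, fun l hl h => ?_⟩
  have := hm (show l ∈ zt ⁻¹' (T : Set ℂˣ) from h)
  omega

namespace Pre

variable {E : Type} [Field E] [Algebra ℂ E] (A : Pre E)

lemma x_ne : A.x ≠ 0 := fun h => A.x_tr ⟨0, by rw [h, map_zero]⟩

lemma y_one_sq : A.y 1 ^ 2 = A.x - 1 := by
  have := A.hy 1
  simpa using this

lemma y_one_ne : A.y 1 ≠ 0 := by
  intro h
  have h1 := A.y_one_sq
  rw [h] at h1
  apply A.x_tr
  refine ⟨1, ?_⟩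
  rw [map_one]
  linear_combination h1

lemma ε_ε (e : E) : A.ε (A.ε e) = e := by
  have : A.ε.comp A.ε = AlgHom.id ℂ E := by
    apply A.gen.algExt
    · simp [A.ε_x]
    · intro ζ
      simp [A.ε_y]
  exact DFunLike.congr_fun this e

lemma ρ_one (e : E) : A.ρ 1 e = e := by
  have : A.ρ 1 = AlgHom.id ℂ E := by
    apply A.gen.algExt
    · simp [A.ρ_x]
    · intro ζ
      simp [A.ρ_y]
  exact DFunLike.congr_fun this e

lemma ρ_mul (a b : ℂˣ) (e : E) : A.ρ a (A.ρ b e) = A.ρ (b * a) e := by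
  have : (A.ρ a).comp (A.ρ b) = A.ρ (b * a) := by
    apply A.gen.algExt
    · simp only [AlgHom.comp_apply, A.ρ_x, map_mul, AlgHom.commutes, Units.val_mul]
      ring
    · intro ζ
      simp only [AlgHom.comp_apply, A.ρ_y, mul_assoc]
  exact DFunLike.congr_fun this e

lemma ε_ρ (a : ℂˣ) (e : E) : A.ε (A.ρ a e) = A.ρ a (A.ε e) := by
  have : A.ε.comp (A.ρ a) = (A.ρ a).comp A.ε := by
    apply A.gen.algExt
    · simp only [AlgHom.comp_apply, A.ρ_x, A.ε_x, map_mul, AlgHom.commutes]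
    · intro ζ
      simp only [AlgHom.comp_apply, A.ρ_y, A.ε_y, map_neg]
  exact DFunLike.congr_fun this e

lemma ρ_iter (a : ℂˣ) (n : ℕ) (e : E) : (A.ρ a)^[n] e = A.ρ (a ^ n) e := by
  induction n with
  | zero => simp [A.ρ_one]
  | succ n ih => rw [Function.iterate_succ_apply', ih, A.ρ_mul, pow_succ]

/-- finite support of the elements of `E` -/
lemma supp (k : E) : ∃ S : Finset ℂˣ, ∀ φ ψ : E →ₐ[ℂ] E, φ A.x = ψ A.x →
    (∀ ζ ∈ S, φ (A.y ζ) = ψ (A.y ζ)) → φ k = ψ k := by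
  classical
  let K : Subfield E :=
    { carrier := {k | ∃ S : Finset ℂˣ, ∀ φ ψ : E →ₐ[ℂ] E, φ A.x = ψ A.x →
        (∀ ζ ∈ S, φ (A.y ζ) = ψ (A.y ζ)) → φ k = ψ k}
      mul_mem' := by
        rintro a b ⟨S, hS⟩ ⟨T, hT⟩
        refine ⟨S ∪ T, fun φ ψ h1 h2 => ?_⟩
        rw [map_mul, map_mul, hS φ ψ h1 (fun ζ hζ => h2 ζ (mem_union_left _ hζ)),
          hT φ ψ h1 (fun ζ hζ => h2 ζ (mem_union_right _ hζ))]
      one_mem' := ⟨∅, fun φ ψ _ _ => by rw [map_one, map_one]⟩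
      add_mem' := by
        rintro a b ⟨S, hS⟩ ⟨T, hT⟩
        refine ⟨S ∪ T, fun φ ψ h1 h2 => ?_⟩
        rw [map_add, map_add, hS φ ψ h1 (fun ζ hζ => h2 ζ (mem_union_left _ hζ)),
          hT φ ψ h1 (fun ζ hζ => h2 ζ (mem_union_right _ hζ))]
      zero_mem' := ⟨∅, fun φ ψ _ _ => by rw [map_zero, map_zero]⟩
      neg_mem' := by
        rintro a ⟨S, hS⟩
        refine ⟨S, fun φ ψ h1 h2 => ?_⟩
        rw [map_neg, map_neg, hS φ ψ h1 h2]
      inv_mem' := by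
        rintro a ⟨S, hS⟩
        refine ⟨S, fun φ ψ h1 h2 => ?_⟩
        rw [map_inv₀, map_inv₀, hS φ ψ h1 h2] }
  refine A.gen K ?_ ?_ ?_ k
  · intro c
    exact ⟨∅, fun φ ψ _ _ => by rw [AlgHom.commutes, AlgHom.commutes]⟩
  · exact ⟨∅, fun φ ψ h _ => h⟩
  · intro ζ
    exact ⟨{ζ}, fun φ ψ _ h => h ζ (mem_singleton_self _)⟩

lemma locS (S : Finset ℂˣ) : ∃ μ : E →ₐ[ℂ] E, μ A.x = A.x ∧ (∀ ζ ∈ S, μ (A.y ζ) = - A.y ζ) ∧
    ∀ ζ, ζ ∉ S → μ (A.y ζ) = A.y ζ := by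
  classical
  induction S using Finset.induction_on with
  | empty => exact ⟨AlgHom.id ℂ E, rfl, by simp, by simp⟩
  | insert a S ha ih =>
    obtain ⟨μ, h1, h2, h3⟩ := ih
    obtain ⟨ν, k1, k2, k3⟩ := A.loc a
    refine ⟨ν.comp μ, by simp [h1, k1], ?_, ?_⟩
    · intro ζ hζ
      rcases Finset.mem_insert.1 hζ with rfl | hζ
      · rw [AlgHom.comp_apply, h3 _ ha, k2]
      · have : ζ ≠ a := fun h => ha (h ▸ hζ)
        rw [AlgHom.comp_apply, h2 _ hζ, map_neg, k3 _ this]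
    · intro ζ hζ
      have h4 : ζ ≠ a := fun h => hζ (by rw [h]; exact Finset.mem_insert_self _ _)
      have h5 : ζ ∉ S := fun h => hζ (Finset.mem_insert_of_mem h)
      rw [AlgHom.comp_apply, h3 _ h5, k3 _ h4]

lemma nsq (k : E) (hk : k ≠ 0) (hε : A.ε k = -k) :
    ∃ m, ∀ l, m ≤ l → ∀ β, k * A.ρ (zt l) k ≠ β ^ 2 := by
  classical
  obtain ⟨S, hS⟩ := A.supp k
  obtain ⟨m, hm⟩ := zt_avoid ((S ×ˢ S).image fun p => p.1⁻¹ * p.2)
  refine ⟨m, fun l hl β hβ => ?_⟩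
  have hd : ∀ ζ ∈ S, ζ * zt l ∉ S := by
    intro ζ hζ h
    apply hm l hl
    refine Finset.mem_image.2 ⟨(ζ, ζ * zt l), Finset.mem_product.2 ⟨hζ, h⟩, ?_⟩
    simp
  obtain ⟨μ, h1, h2, h3⟩ := A.locS S
  have hμ2 : ∀ e, μ (μ e) = e := by
    intro e
    have : μ.comp μ = AlgHom.id ℂ E := by
      apply A.gen.algExt
      · simp [h1]
      · intro ζ
        by_cases hζ : ζ ∈ S
        · simp [h2 ζ hζ]
        · simp [h3 ζ hζ]
    exact DFunLike.congr_fun this e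
  have e1 : μ k = -k := by
    rw [← hε]
    apply hS μ A.ε
    · rw [h1, A.ε_x]
    · intro ζ hζ
      rw [h2 ζ hζ, A.ε_y]
  have e2 : μ (A.ρ (zt l) k) = A.ρ (zt l) k := by
    have := hS (μ.comp (A.ρ (zt l))) (A.ρ (zt l)) ?_ ?_
    · exact this
    · rw [AlgHom.comp_apply, A.ρ_x, map_mul, AlgHom.commutes, h1]
    · intro ζ hζ
      rw [AlgHom.comp_apply, A.ρ_y, h3 _ (hd ζ hζ)]
  have e3 : (μ β) ^ 2 = - β ^ 2 := by
    rw [← map_pow, ← hβ, map_mul, e1, e2]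
    ring
  set i : E := algebraMap ℂ E Complex.I with hi
  have hi2 : i ^ 2 = -1 := by
    rw [hi, ← map_pow, Complex.I_sq, map_neg, map_one]
  have e4 : (μ β) ^ 2 = (i * β) ^ 2 := by
    rw [e3, mul_pow, hi2]
    ring
  have hμi : μ i = i := AlgHom.commutes _ _
  have e5 : μ (μ β) = -β := by
    rcases sq_eq_sq_iff_eq_or_eq_neg.1 e4 with h | h
    · rw [h, map_mul, hμi, h]
      linear_combination β * hi2
    · rw [h, map_neg, map_mul, hμi, h]
      linear_combination β * hi2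
  rw [hμ2] at e5
  have hchar : (2 : E) ≠ 0 := by
    have : (algebraMap ℂ E) 2 = 2 := map_ofNat _ 2
    rw [← this]
    exact (map_ne_zero _).2 two_ne_zero
  have e6 : β = 0 := by
    have : (2 : E) * β = 0 := by linear_combination e5
    rcases mul_eq_zero.1 this with h | h
    · exact absurd h hchar
    · exact h
  rw [e6] at hβ
  have : k * A.ρ (zt l) k ≠ 0 := mul_ne_zero hk ((map_ne_zero _).2 hk)
  apply this
  rw [hβ]
  ring

/-- `η = 1 + i y₁` -/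
def η : E := 1 + algebraMap ℂ E Complex.I * A.y 1

lemma η_ε : A.η * A.ε A.η = A.x := by
  have hi2 : (algebraMap ℂ E Complex.I) ^ 2 = -1 := by
    rw [← map_pow, Complex.I_sq, map_neg, map_one]
  simp only [η, map_add, map_one, map_mul, AlgHom.commutes, A.ε_y]
  have := A.y_one_sq
  linear_combination (-(A.y 1) ^ 2) * hi2 + this

lemma η_ne : A.η ≠ 0 := by
  intro h
  have := A.η_ε
  rw [h, zero_mul] at this
  exact A.x_ne this.symm

/-- `N_l = ζ_{l+1} η / σ_l η` -/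
def N (l : ℕ) : E := algebraMap ℂ E (zt (l + 1)) * A.η / A.ρ (zt l) A.η

lemma c_ne (z : ℂˣ) : algebraMap ℂ E (z : ℂ) ≠ 0 := (map_ne_zero _).2 z.ne_zero

lemma c_sq (l : ℕ) : (algebraMap ℂ E (zt (l + 1) : ℂ)) ^ 2 = algebraMap ℂ E (zt l : ℂ) := by
  rw [← map_pow, ← Units.val_pow_eq_pow_val, zt_sq]

lemma N_ne (l : ℕ) : A.N l ≠ 0 :=
  div_ne_zero (mul_ne_zero (c_ne _) A.η_ne) ((map_ne_zero _).2 A.η_ne)

lemma ε_N (l : ℕ) : A.ε (A.N l) = (A.N l)⁻¹ := by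
  have h0 := A.η_ne
  have h1 : A.ρ (zt l) A.η ≠ 0 := (map_ne_zero _).2 A.η_ne
  have h2 : A.ε A.η = A.x / A.η := by
    rw [eq_div_iff h0, mul_comm, A.η_ε]
  have hx := A.x_ne
  have hc := c_ne (E := E) (zt l)
  have hc' := c_ne (E := E) (zt (l + 1))
  have hs := c_sq (E := E) l
  rw [N, map_div₀, map_mul, AlgHom.commutes, A.ε_ρ, h2, map_div₀, A.ρ_x, inv_div]
  rw [← hs]
  field_simp

lemma N_mul (l : ℕ) : A.N (l + 1) * A.ρ (zt (l + 1)) (A.N (l + 1)) = A.N l := by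
  have h0 := A.η_ne
  have h1 : A.ρ (zt l) A.η ≠ 0 := (map_ne_zero _).2 A.η_ne
  have h1' : A.ρ (zt (l + 1)) A.η ≠ 0 := (map_ne_zero _).2 A.η_ne
  have hs := c_sq (E := E) (l + 1)
  have h3 : A.ρ (zt (l + 1)) (A.ρ (zt (l + 1)) A.η) = A.ρ (zt l) A.η := by
    rw [A.ρ_mul, ← sq, zt_sq]
  simp only [N, map_div₀, map_mul, AlgHom.commutes, h3]
  rw [← hs]
  field_simp

/-- `θ_l` -/
def θ (l : ℕ) : E := by
  classical
  exact if A.N l = 1 then 1 else A.y 1 * (1 - A.N l)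

lemma θ_ne (l : ℕ) : A.θ l ≠ 0 := by
  classical
  unfold θ
  split_ifs with h
  · exact one_ne_zero
  · exact mul_ne_zero A.y_one_ne (sub_ne_zero.2 (Ne.symm h))

lemma θ_eq (l : ℕ) : A.ε (A.θ l) = A.θ l / A.N l := by
  classical
  have hN := A.N_ne l
  unfold θ
  split_ifs with h
  · rw [h]; simp
  · rw [map_mul, map_sub, map_one, A.ε_N, A.ε_y]
    field_simp
    ring

/-- `κ_l` -/
def κ (l : ℕ) : E := ∏ i ∈ range (2 ^ l), A.ρ (zt l ^ i) (A.θ l)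

/-- `α_l` -/
def α (l : ℕ) : E := A.θ (l + 1) * A.ρ (zt (l + 1)) (A.θ (l + 1)) / A.θ l

lemma κ_ne (l : ℕ) : A.κ l ≠ 0 :=
  Finset.prod_ne_zero_iff.2 fun _ _ => (map_ne_zero _).2 (A.θ_ne l)

lemma α_ne (l : ℕ) : A.α l ≠ 0 :=
  div_ne_zero (mul_ne_zero (A.θ_ne _) ((map_ne_zero _).2 (A.θ_ne _))) (A.θ_ne _)

lemma σ_κ (l : ℕ) : A.ρ (zt l) (A.κ l) = A.κ l := by
  have h1 : A.ρ (zt l) (A.κ l) = ∏ i ∈ range (2 ^ l), A.ρ (zt l ^ (i + 1)) (A.θ l) := by
    rw [κ, map_prod]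
    refine Finset.prod_congr rfl fun i _ => ?_
    rw [A.ρ_mul, pow_succ]
  have h2 := Finset.prod_range_succ (fun i => A.ρ (zt l ^ i) (A.θ l)) (2 ^ l)
  have h3 := Finset.prod_range_succ' (fun i => A.ρ (zt l ^ i) (A.θ l)) (2 ^ l)
  rw [h2, zt_pow] at h3
  simp only [pow_zero, A.ρ_one] at h3
  rw [h1]
  exact (mul_right_cancel₀ (A.θ_ne l) h3).symm

lemma prod_N (l n : ℕ) : ∏ i ∈ range n, A.ρ (zt l ^ i) (A.N l) =
    (algebraMap ℂ E (zt (l + 1) : ℂ)) ^ n * A.η / A.ρ (zt l ^ n) A.η := by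
  induction n with
  | zero => simp [A.ρ_one, div_self A.η_ne]
  | succ n ih =>
    have h1 : A.ρ (zt l ^ n) A.η ≠ 0 := (map_ne_zero _).2 A.η_ne
    have h2 : A.ρ (zt l ^ (n + 1)) A.η ≠ 0 := (map_ne_zero _).2 A.η_ne
    rw [Finset.prod_range_succ, ih, N, map_div₀, map_mul, AlgHom.commutes, A.ρ_mul, ← pow_succ']
    field_simp
    ring

lemma ε_κ (l : ℕ) : A.ε (A.κ l) = - A.κ l := by
  have h1 : A.ε (A.κ l) = A.κ l / ∏ i ∈ range (2 ^ l), A.ρ (zt l ^ i) (A.N l) := by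
    rw [κ, map_prod, ← Finset.prod_div_distrib]
    refine Finset.prod_congr rfl fun i _ => ?_
    rw [A.ε_ρ, A.θ_eq, map_div₀]
  have h2 : (algebraMap ℂ E (zt (l + 1) : ℂ)) ^ (2 ^ l) = -1 := by
    rw [← map_pow, ← Units.val_pow_eq_pow_val, zt_pow']
    simp
  rw [h1, A.prod_N, h2, zt_pow, A.ρ_one]
  have := A.η_ne
  field_simp

lemma ε_α (l : ℕ) : A.ε (A.α l) = A.α l := by
  have h0 := A.θ_ne l
  have h1 := A.θ_ne (l + 1)
  have h2 := A.N_ne l
  have h3 := A.N_ne (l + 1)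
  have h4 : A.ρ (zt (l + 1)) (A.N (l + 1)) ≠ 0 := (map_ne_zero _).2 h3
  have h5 := A.N_mul l
  rw [α, map_div₀, map_mul, A.ε_ρ, A.θ_eq, A.θ_eq, map_div₀]
  rw [← h5]
  field_simp

omit [Algebra ℂ E] in
lemma prod_pair (g : ℕ → E) (n : ℕ) :
    ∏ i ∈ range n, (g (2 * i) * g (2 * i + 1)) = ∏ j ∈ range (2 * n), g j := by
  induction n with
  | zero => simp
  | succ n ih =>
    rw [Finset.prod_range_succ, ih, show 2 * (n + 1) = 2 * n + 1 + 1 by ring,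
      Finset.prod_range_succ, Finset.prod_range_succ, mul_assoc]

lemma κ_succ (l : ℕ) :
    A.κ (l + 1) = (∏ i ∈ range (2 ^ l), A.ρ (zt l ^ i) (A.α l)) * A.κ l := by
  have h1 : (∏ i ∈ range (2 ^ l), A.ρ (zt l ^ i) (A.α l)) * A.κ l =
      ∏ i ∈ range (2 ^ l), (A.ρ (zt (l + 1) ^ (2 * i)) (A.θ (l + 1)) *
        A.ρ (zt (l + 1) ^ (2 * i + 1)) (A.θ (l + 1))) := by
    rw [κ, ← Finset.prod_mul_distrib]
    refine Finset.prod_congr rfl fun i _ => ?_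
    have h2 : A.ρ (zt l ^ i) (A.θ l) ≠ 0 := (map_ne_zero _).2 (A.θ_ne l)
    have h3 : zt (l + 1) ^ (2 * i) = zt l ^ i := by rw [pow_mul, zt_sq]
    have h4 : zt (l + 1) ^ (2 * i + 1) = zt (l + 1) * zt l ^ i := by
      rw [pow_succ', h3]
    rw [h3, h4, α, map_div₀, map_mul, A.ρ_mul]
    field_simp
  rw [h1, prod_pair (fun j => A.ρ (zt (l + 1) ^ j) (A.θ (l + 1))), κ, pow_succ']

end Pre

end Final

/-! ### From `Pre` to `Res` -/

section ToRes

open Pool.Agent.Run7.h378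

variable {E : Type} [Field E] [Algebra ℂ E]

/-- the automorphisms `σ` -/
def Pre.σe (A : Pre E) (a : ℂˣ) : E ≃ₐ[ℂ] E :=
  AlgEquiv.ofAlgHom (A.ρ a) (A.ρ a⁻¹)
    (by
      ext e
      simp only [AlgHom.comp_apply, A.ρ_mul, inv_mul_cancel, A.ρ_one, AlgHom.id_apply])
    (by
      ext e
      simp only [AlgHom.comp_apply, A.ρ_mul, mul_inv_cancel, A.ρ_one, AlgHom.id_apply])

/-- the automorphism `ε` -/
def Pre.εe (A : Pre E) : E ≃ₐ[ℂ] E :=
  AlgEquiv.ofAlgHom A.ε A.ε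
    (by
      ext e
      simp only [AlgHom.comp_apply, A.ε_ε, AlgHom.id_apply])
    (by
      ext e
      simp only [AlgHom.comp_apply, A.ε_ε, AlgHom.id_apply])

lemma Pre.σe_apply (A : Pre E) (a : ℂˣ) (e : E) : A.σe a e = A.ρ a e := rfl

lemma Pre.εe_apply (A : Pre E) (e : E) : A.εe e = A.ε e := rfl

lemma Pre.σe_iter (A : Pre E) (a : ℂˣ) (n : ℕ) (e : E) :
    (A.σe a)^[n] e = A.ρ (a ^ n) e := A.ρ_iter a n e

lemma Pre.alg (A : Pre E) (e : E) : e ∈ acl (Set.range (algebraMap ℂ E) ∪ {A.x}) := by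
  set k : Subfield E := Subfield.closure (Set.range (algebraMap ℂ E) ∪ {A.x}) with hk
  change IsAlgebraic k e
  have hc : ∀ c : ℂ, algebraMap ℂ E c ∈ k := fun c =>
    Subfield.subset_closure (Or.inl ⟨c, rfl⟩)
  have hx : A.x ∈ k := Subfield.subset_closure (Or.inr rfl)
  have hmem : ∀ z ∈ k, IsAlgebraic k z := fun z hz => isAlgebraic_algebraMap (⟨z, hz⟩ : k)
  have := A.gen (algebraicClosure k E).toSubfield ?_ ?_ ?_ e
  · exact mem_algebraicClosure_iff.1 this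
  · intro c
    exact mem_algebraicClosure_iff.2 (hmem _ (hc c))
  · exact mem_algebraicClosure_iff.2 (hmem _ hx)
  · intro ζ
    refine mem_algebraicClosure_iff.2 ?_
    have h2 : IsAlgebraic k (A.y ζ ^ 2) := by
      rw [A.hy]
      exact hmem _ (k.sub_mem (k.mul_mem (hc _) hx) k.one_mem)
    exact h2.of_pow (by norm_num)

/-- The residue data. -/
def Pre.toRes (A : Pre E) : Res E where
  x := A.x
  ζ l := (zt l : ℂ)
  ζ_zero := by rw [zt_zero]; rfl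
  ζ_one := by rw [zt_one]; simp
  ζ_sq l := by rw [← Units.val_pow_eq_pow_val, zt_sq]
  x_tr := A.x_tr
  alg := A.alg
  σ l := A.σe (zt l)
  σ_zero e := by rw [zt_zero, A.σe_apply, A.ρ_one]
  σ_sq l e := by rw [A.σe_apply, A.σe_apply, A.σe_apply, A.ρ_mul, ← sq, zt_sq]
  σ_x l := by rw [A.σe_apply, A.ρ_x]
  ε := A.εe
  ε_sq e := by rw [A.εe_apply, A.εe_apply, A.ε_ε]
  ε_x := by rw [A.εe_apply, A.ε_x]
  ε_σ l e := by simp only [A.εe_apply, A.σe_apply, A.ε_ρ]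
  nsq k hk h := by
    obtain ⟨m, hm⟩ := A.nsq k hk (by rw [← A.εe_apply]; exact h)
    exact ⟨m, fun l hl β => by rw [A.σe_apply]; exact hm l hl β⟩
  κ := A.κ
  α := A.α
  κ_ne := A.κ_ne
  α_ne := A.α_ne
  ε_κ l := by rw [A.εe_apply, A.ε_κ]
  σ_κ l := by rw [A.σe_apply, A.σ_κ]
  ε_α l := by rw [A.εe_apply, A.ε_α]
  κ_succ l := by
    rw [A.κ_succ]
    congr 1
    refine Finset.prod_congr rfl fun i _ => ?_
    rw [A.σe_iter]

end ToRes


/-! ### The models -/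

section Models

open PowerSeries

/-- The fraction field of `ℂ⟦X⟧`. -/
abbrev M0 : Type := FractionRing ℂ⟦X⟧

/-- power series in `M0` -/
def ps : ℂ⟦X⟧ →ₐ[ℂ] M0 := IsScalarTower.toAlgHom ℂ ℂ⟦X⟧ M0

lemma ps_inj : Function.Injective ps := IsFractionRing.injective ℂ⟦X⟧ M0

lemma ps_C (c : ℂ) : ps (C c) = algebraMap ℂ M0 c := by
  have : (C c : ℂ⟦X⟧) = algebraMap ℂ ℂ⟦X⟧ c := rfl
  rw [this, AlgHom.commutes]

lemma rs_aux {a : ℂ} (ha : a ≠ 0) :
    Function.Injective (((ps : ℂ⟦X⟧ →ₐ[ℂ] M0) : ℂ⟦X⟧ →+* M0).comp (rescale a)) :=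
  ps_inj.comp (rescale_injective ha)

lemma rescale_C' (a c : ℂ) : rescale a (C c : ℂ⟦X⟧) = C c := by
  ext n
  rw [coeff_rescale, coeff_C]
  split_ifs with h
  · simp [h]
  · simp

/-- `t ↦ a t` on `M0`. -/
def rs (a : ℂ) (ha : a ≠ 0) : M0 →ₐ[ℂ] M0 :=
  { (IsFractionRing.lift (K := M0) (rs_aux ha)) with
    commutes' := by
      intro c
      have h1 : algebraMap ℂ M0 c = algebraMap ℂ⟦X⟧ M0 (C c) := (ps_C c).symm
      have h2 := IsFractionRing.lift_algebraMap (K := M0) (rs_aux ha) (C c)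
      change IsFractionRing.lift (K := M0) (rs_aux ha) (algebraMap ℂ M0 c) = _
      rw [h1, h2]
      change ps (rescale a (C c)) = ps (C c)
      rw [rescale_C'] }

lemma rs_ps (a : ℂ) (ha : a ≠ 0) (p : ℂ⟦X⟧) : rs a ha (ps p) = ps (rescale a p) :=
  IsFractionRing.lift_algebraMap (K := M0) (rs_aux ha) p

lemma ps_X_ne : ps X ≠ 0 := by
  intro h
  have : (X : ℂ⟦X⟧) = 0 := ps_inj (by rw [h, map_zero])
  exact X_ne_zero this

/-- the square root of `X - 1` -/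
lemma exists_y0 : ∃ y : ℂ⟦X⟧, y ^ 2 = X - 1 := exists_sqrt _ (by simp)

def y0 : ℂ⟦X⟧ := exists_y0.choose

lemma y0_sq : y0 ^ 2 = X - 1 := exists_y0.choose_spec

/-- `x` in the base model -/
def bx : M0 := ps X

/-- `y_ζ` in the base model -/
def bY (ζ : ℂˣ) : M0 := ps (rescale (ζ : ℂ) y0)

lemma bY_sq (ζ : ℂˣ) : bY ζ ^ 2 = algebraMap ℂ M0 ζ * bx - 1 := by
  rw [bY, bx, ← map_pow, ← map_pow, y0_sq, map_sub, map_one, rescale_X, map_sub, map_mul, ps_C,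
    map_one]

/-- the field `E` -/
def EE : IntermediateField ℂ M0 := IntermediateField.adjoin ℂ ({bx} ∪ Set.range bY)

lemma bx_mem : bx ∈ EE := IntermediateField.subset_adjoin _ _ (Or.inl rfl)

lemma bY_mem (ζ : ℂˣ) : bY ζ ∈ EE := IntermediateField.subset_adjoin _ _ (Or.inr ⟨ζ, rfl⟩)

def ex : EE := ⟨bx, bx_mem⟩

def eY (ζ : ℂˣ) : EE := ⟨bY ζ, bY_mem ζ⟩

lemma gen_EE : Gen ex eY := by
  intro K h0 h1 h2 e
  let K' : Subfield M0 := K.map (EE.val : EE →+* M0)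
  have hc : ∀ c : ℂ, algebraMap ℂ M0 c ∈ K' := fun c => ⟨algebraMap ℂ EE c, h0 c, rfl⟩
  let K'' : IntermediateField ℂ M0 := K'.toIntermediateField hc
  have hle : EE ≤ K'' := by
    refine IntermediateField.adjoin_le_iff.2 ?_
    rintro z (hz | ⟨ζ, rfl⟩)
    · rw [hz]
      exact ⟨ex, h1, rfl⟩
    · exact ⟨eY ζ, h2 ζ, rfl⟩
  obtain ⟨e', he', h⟩ := hle e.2
  have : e' = e := Subtype.ext h
  rw [← this]
  exact he'

lemma ex_tr : ex ∉ Set.range (algebraMap ℂ EE) := by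
  rintro ⟨c, hc⟩
  have h1 : algebraMap ℂ M0 c = bx := congrArg Subtype.val hc
  rw [← ps_C, bx] at h1
  have h2 := congrArg (coeff 1) (ps_inj h1)
  rw [coeff_one_X, coeff_C] at h2
  simp at h2

lemma eY_sq (ζ : ℂˣ) : eY ζ ^ 2 = algebraMap ℂ EE ζ * ex - 1 :=
  Subtype.ext (bY_sq ζ)

open Polynomial in
/-- The polynomials `ζ X - 1`. -/
def ff (ζ : ℂˣ) : ℂ[X] := Polynomial.C (ζ : ℂ) * Polynomial.X - 1

open Polynomial in
lemma aeval_ff {M : Type} [Field M] [Algebra ℂ M] (x : M) (ζ : ℂˣ) :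
    aeval x (ff ζ) = algebraMap ℂ M ζ * x - 1 := by
  simp [ff]

/-- sign automorphisms from a model -/
lemma sign (x' : M0) (y' : ℂˣ → M0) (hx' : x' ∉ Set.range (algebraMap ℂ M0))
    (hy' : ∀ ζ : ℂˣ, y' ζ ^ 2 = algebraMap ℂ M0 ζ * x' - 1) (ν : M0 →ₐ[ℂ] M0) (hν : ν x' = x')
    (s : ℂˣ → ℂ) (hs : ∀ ζ, ν (y' ζ) = algebraMap ℂ M0 (s ζ) * y' ζ) :
    ∃ μ : EE →ₐ[ℂ] EE, μ ex = ex ∧ ∀ ζ, μ (eY ζ) = algebraMap ℂ EE (s ζ) * eY ζ := by
  obtain ⟨j, hj1, hj2⟩ := transfer ex eY ff gen_EE (transc _ ex_tr)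
    (fun ζ => by rw [aeval_ff, eY_sq]) x' y' (transc _ hx') (fun ζ => by rw [aeval_ff, hy'])
  refine descend ex eY gen_EE j ν ex (fun ζ => algebraMap ℂ EE (s ζ) * eY ζ) ?_ ?_
  · rw [hj1, hν]
  · intro ζ
    rw [map_mul, AlgHom.commutes]
    rcases hj2 ζ with h | h
    · rw [h, hs]
    · rw [h, map_neg, hs]
      ring

lemma neg_one_ne : (-1 : ℂ) ≠ 0 := by norm_num

/-- model at infinity -/
lemma exists_eps : ∃ μ : EE →ₐ[ℂ] EE, μ ex = ex ∧ ∀ ζ, μ (eY ζ) = - eY ζ := by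
  have hq : ∀ ζ : ℂˣ, ∃ q : ℂ⟦X⟧, q ^ 2 = C (ζ : ℂ) - X ^ 2 ∧ rescale (-1) q = q := by
    intro ζ
    refine exists_sqrt_even _ ?_ ?_
    · simp
    · rw [map_sub, rescale_C', map_pow, rescale_neg_one_X]
      ring
  choose q hq1 hq2 using hq
  have ht := ps_X_ne
  have := sign ((ps X)⁻¹ ^ 2) (fun ζ => (ps X)⁻¹ * ps (q ζ)) ?_ ?_ (rs (-1) neg_one_ne) ?_
    (fun _ => -1) ?_
  · obtain ⟨μ, h1, h2⟩ := this
    refine ⟨μ, h1, fun ζ => ?_⟩
    rw [h2, map_neg, map_one]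
    ring
  · rintro ⟨c, hc⟩
    have h1 : ps (C c * X ^ 2) = ps 1 := by
      rw [map_mul, ps_C, hc, map_pow, map_one]
      field_simp
    have h2 := congrArg (coeff 0) (ps_inj h1)
    simp at h2
  · intro ζ
    rw [mul_pow, ← map_pow, hq1, map_sub, ps_C, map_pow]
    field_simp
  · rw [map_pow, map_inv₀, rs_ps, rescale_neg_one_X, map_neg]
    ring
  · intro ζ
    rw [map_mul, map_inv₀, rs_ps, rs_ps, rescale_neg_one_X, map_neg, hq2, map_neg, map_one]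
    ring

/-- model at `1 / ζ₀` -/
lemma exists_loc (ζ₀ : ℂˣ) : ∃ μ : EE →ₐ[ℂ] EE, μ ex = ex ∧ μ (eY ζ₀) = - eY ζ₀ ∧
    ∀ ζ, ζ ≠ ζ₀ → μ (eY ζ) = eY ζ := by
  classical
  have hq : ∀ ζ : ℂˣ, ∃ q : ℂ⟦X⟧, ζ ≠ ζ₀ →
      q ^ 2 = C ((ζ : ℂ) * (ζ₀ : ℂ)⁻¹) * (1 + X ^ 2) - 1 ∧ rescale (-1) q = q := by
    intro ζ
    by_cases h : ζ = ζ₀
    · exact ⟨0, fun h' => absurd h h'⟩
    · have hp1 : constantCoeff (C ((ζ : ℂ) * (ζ₀ : ℂ)⁻¹) * (1 + X ^ 2) - 1 : ℂ⟦X⟧) ≠ 0 := by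
        intro h3
        apply h
        have h4 : (ζ : ℂ) * (ζ₀ : ℂ)⁻¹ = 1 := by
          simp only [map_sub, map_mul, map_add, map_one, map_pow, constantCoeff_C,
            constantCoeff_X] at h3
          linear_combination h3
        have h5 := ζ₀.ne_zero
        ext
        calc (ζ : ℂ) = (ζ : ℂ) * (ζ₀ : ℂ)⁻¹ * ζ₀ := by field_simp
          _ = ζ₀ := by rw [h4, one_mul]
      have hp2 : rescale (-1) (C ((ζ : ℂ) * (ζ₀ : ℂ)⁻¹) * (1 + X ^ 2) - 1 : ℂ⟦X⟧) =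
          C ((ζ : ℂ) * (ζ₀ : ℂ)⁻¹) * (1 + X ^ 2) - 1 := by
        rw [map_sub, map_mul, rescale_C', map_add, map_pow, rescale_neg_one_X, map_one, neg_sq]
      obtain ⟨q, h1, h2⟩ := exists_sqrt_even _ hp1 hp2
      exact ⟨q, fun _ => ⟨h1, h2⟩⟩
  choose q hq using hq
  have hz := ζ₀.ne_zero
  have ht := ps_X_ne
  have := sign (ps (C (ζ₀ : ℂ)⁻¹ * (1 + X ^ 2)))
    (fun ζ => if ζ = ζ₀ then ps X else ps (q ζ)) ?_ ?_ (rs (-1) neg_one_ne) ?_
    (fun ζ => if ζ = ζ₀ then -1 else 1) ?_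
  · obtain ⟨μ, h1, h2⟩ := this
    refine ⟨μ, h1, ?_, fun ζ hζ => ?_⟩
    · rw [h2, if_pos rfl, map_neg, map_one]
      ring
    · rw [h2, if_neg hζ, map_one, one_mul]
  · rintro ⟨c, hc⟩
    rw [← ps_C] at hc
    have h2 := congrArg (coeff 2) (ps_inj hc)
    rw [coeff_C, coeff_C_mul, map_add, coeff_X_pow, coeff_one] at h2
    simp at h2
    exact hz h2.symm
  · intro ζ
    by_cases h : ζ = ζ₀
    · rw [if_pos h, h, map_mul, ps_C, map_add, map_pow, map_one, ← mul_assoc, ← map_mul,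
        mul_inv_cancel₀ hz, map_one]
      ring
    · have h6 : (C ((ζ : ℂ) * (ζ₀ : ℂ)⁻¹) : ℂ⟦X⟧) = C (ζ : ℂ) * C (ζ₀ : ℂ)⁻¹ := map_mul _ _ _
      rw [if_neg h, ← map_pow, (hq ζ h).1, h6, mul_assoc, map_sub, map_mul ps (C (ζ : ℂ)), ps_C,
        map_one]
  · rw [rs_ps, map_mul, rescale_C', map_add, map_pow, rescale_neg_one_X, map_one, neg_sq]
  · intro ζ
    by_cases h : ζ = ζ₀
    · rw [if_pos h, if_pos h, rs_ps, rescale_neg_one_X, map_neg, map_neg, map_one]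
      ring
    · rw [if_neg h, if_neg h, rs_ps, (hq ζ h).2, map_one, one_mul]

lemma exists_rho (a : ℂˣ) : ∃ μ : EE →ₐ[ℂ] EE, μ ex = algebraMap ℂ EE a * ex ∧
    ∀ ζ, μ (eY ζ) = eY (ζ * a) := by
  refine descend ex eY gen_EE EE.val (rs a a.ne_zero) (algebraMap ℂ EE a * ex)
    (fun ζ => eY (ζ * a)) ?_ ?_
  · change rs a a.ne_zero (ps X) = algebraMap ℂ M0 a * ps X
    rw [rs_ps, rescale_X, map_mul, ps_C]
  · intro ζ
    change rs a a.ne_zero (ps (rescale (ζ : ℂ) y0)) = ps (rescale ((ζ * a : ℂˣ) : ℂ) y0)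
    rw [rs_ps, rescale_rescale, Units.val_mul]

/-- the structure on `EE` -/
def preEE : Pre EE where
  x := ex
  y := eY
  gen := gen_EE
  x_tr := ex_tr
  hy := eY_sq
  ρ a := (exists_rho a).choose
  ρ_x a := (exists_rho a).choose_spec.1
  ρ_y a ζ := (exists_rho a).choose_spec.2 ζ
  ε := exists_eps.choose
  ε_x := exists_eps.choose_spec.1
  ε_y ζ := exists_eps.choose_spec.2 ζ
  loc := exists_loc

end Models

/-- PIECE F1. -/
theorem p_res : Pool.Agent.Run7.h378.S_res :=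
  ⟨EE, inferInstance, inferInstance, ⟨preEE.toRes⟩⟩

end Pool.Agent.Run7.h930.Rs
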